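import Pool.Agent.H703R3.MBBody

/-!
# Inner billiards in several dimensions: a table other than an ellipsoid with an invariant
hypersurface (MP_d967a3_an, Q1)

The table is the body of revolution `‖x‖² + x_k⁴ ≤ 1` of `ℝⁿ`, `n ≥ 3`, and the hypersurface is the
set of the oriented lines of angular momentum `1/2` in the plane of two other coordinates.
-/

set_option autoImplicit false

open Set Filter Topology
open scoped RealInnerProductSpace ContDiff

namespace Pool.Agent.Y294.MB

open Pool.Agent.H703R3.MB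

variable {n : ℕ}

/-- unit coordinate vector -/
noncomputable def ek (k : Fin n) : Euc n := EuclideanSpace.single k 1

/-- the quartic function -/
noncomputable def fi (k : Fin n) (x : Euc n) : ℝ := ‖x‖ ^ 2 + (x k) ^ 4

/-- its gradient -/
noncomputable def gi (k : Fin n) (x : Euc n) : Euc n := (2 : ℝ) • x + (4 * (x k) ^ 3) • ek k

theorem ek_inner (k : Fin n) (w : Euc n) : ⟪ek k, w⟫ = w k := by
  unfold ek
  rw [EuclideanSpace.inner_single_left]
  simp

theorem ek_same (k : Fin n) : ek k k = 1 := by simp [ek]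

theorem ek_ne {i k : Fin n} (h : i ≠ k) : ek k i = 0 := by simp [ek, h]

theorem gi_inner (k : Fin n) (x w : Euc n) :
    ⟪gi k x, w⟫ = 2 * ⟪x, w⟫ + 4 * (x k) ^ 3 * w k := by
  unfold gi
  rw [inner_add_left, real_inner_smul_left, real_inner_smul_left, ek_inner]

theorem contDiff_coord (k : Fin n) : ContDiff ℝ ∞ (fun x : Euc n => x k) := by fun_prop

theorem goodi (k : Fin n) : Good (fi k) (gi k) where
  cd := by
    unfold fi
    exact (contDiff_norm_sq ℝ).add ((contDiff_coord k).pow 4)
  line := by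
    intro x w
    refine ⟨‖w‖ ^ 2 + 6 * (x k) ^ 2 * (w k) ^ 2, 4 * x k * (w k) ^ 3, (w k) ^ 4, ?_, ?_, ?_⟩
    · nlinarith [sq_nonneg (x k * w k)]
    · nlinarith [sq_nonneg (x k * w k), sq_nonneg (w k * (2 * x k + w k))]
    · intro s
      rw [gi_inner]
      unfold fi
      rw [norm_add_sq_real, norm_smul, real_inner_smul_right, mul_pow, Real.norm_eq_abs, sq_abs]
      have : (x + s • w) k = x k + s * w k := by simp
      rw [this]
      ring
  lower := by
    intro x
    unfold fi
    have : 0 ≤ (x k) ^ 4 := by positivity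
    linarith
  zero := by simp [fi]
  pos := by
    intro x hx
    rw [gi_inner, real_inner_self_eq_norm_sq]
    have hx' : ‖x‖ ^ 2 + (x k) ^ 4 = 1 := hx
    have h0 : 0 ≤ (x k) ^ 4 := by positivity
    have h1 : 0 < ‖x‖ ^ 2 := by
      by_contra h2
      have h3 : ‖x‖ ^ 2 = 0 := le_antisymm (not_lt.1 h2) (by positivity)
      have h4 : x = 0 := by simpa using h3
      rw [h4] at hx'
      simp at hx'
    nlinarith

theorem norm_ek (k : Fin n) : ‖ek k‖ = 1 := by
  have : ‖ek k‖ ^ 2 = 1 := by
    rw [← real_inner_self_eq_norm_sq, ek_inner, ek_same]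
  nlinarith [norm_nonneg (ek k)]

theorem not_elli {j k : Fin n} (hjk : j ≠ k) : ¬ IsEllipsoid (Body (fi k)) := by
  refine (goodi k).not_isEllipsoid (p := ek j) (q := ek k) ?_ (norm_ek j) ?_
  · intro x
    simp only [fi, norm_neg, PiLp.neg_apply]
    ring
  · intro a b
    unfold fi
    rw [norm_add_sq_real, norm_smul, norm_smul, norm_ek, norm_ek, real_inner_smul_left,
      real_inner_smul_right, ek_inner]
    have h1 : (a • ek j + b • ek k) k = b := by
      simp [ek_same, ek_ne hjk.symm]
    rw [h1, ek_ne hjk]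
    simp only [Real.norm_eq_abs, mul_one, mul_zero, sq_abs]
    ring

/-- angular momentum in the plane of the coordinates `i`, `j` -/
noncomputable def am (i j : Fin n) (x v : Euc n) : ℝ := x i * v j - x j * v i

theorem am_add_left (i j : Fin n) (x y v : Euc n) : am i j (x + y) v = am i j x v + am i j y v := by
  simp [am]; ring

theorem am_smul_left (i j : Fin n) (a : ℝ) (x v : Euc n) : am i j (a • x) v = a * am i j x v := by
  simp [am]; ring

theorem am_sub_right (i j : Fin n) (x v w : Euc n) : am i j x (v - w) = am i j x v - am i j x w := by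
  simp [am]; ring

theorem am_smul_right (i j : Fin n) (a : ℝ) (x v : Euc n) : am i j x (a • v) = a * am i j x v := by
  simp [am]; ring

theorem am_self (i j : Fin n) (x : Euc n) : am i j x x = 0 := by
  simp [am]; ring

theorem am_sub_left (i j : Fin n) (x y v : Euc n) : am i j (x - y) v = am i j x v - am i j y v := by
  simp [am]; ring

theorem am_through (i j : Fin n) (x v : Euc n) :
    am i j (lineThrough x v).1 (lineThrough x v).2 = am i j x v := by
  show am i j (x - ⟪x, v⟫ • v) v = _
  rw [am_sub_left, am_smul_left, am_self]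
  ring

theorem am_gi {i j k : Fin n} (hi : i ≠ k) (hj : j ≠ k) (x : Euc n) : am i j x (gi k x) = 0 := by
  simp [am, gi, ek_ne hi, ek_ne hj]
  ring

/-- reflection of the direction `v` at the boundary point `x` -/
noncomputable def rfl' (k : Fin n) (x v : Euc n) : Euc n :=
  v - (2 * ⟪v, outerNormal (Body (fi k)) x⟫) • outerNormal (Body (fi k)) x

section

variable {k : Fin n}

theorem norm_normal {x : Euc n} (hx : fi k x = 1) : ‖outerNormal (Body (fi k)) x‖ = 1 :=
  ((goodi k).isOuterNormal_iff hx).2 ((goodi k).outerNormal_eq hx) |>.1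

theorem norm_rfl {x v : Euc n} (hx : fi k x = 1) (hv : ‖v‖ = 1) : ‖rfl' k x v‖ = 1 := by
  have h1 := norm_normal hx
  set ν := outerNormal (Body (fi k)) x with hν
  have h2 : ‖rfl' k x v‖ ^ 2 = 1 := by
    unfold rfl'
    rw [← hν, norm_sub_sq_real, norm_smul, real_inner_smul_right, mul_pow, h1, hv, Real.norm_eq_abs,
      sq_abs]
    ring
  nlinarith [norm_nonneg (rfl' k x v)]

theorem rfl_normal {x v : Euc n} (hx : fi k x = 1) :
    ⟪rfl' k x v, outerNormal (Body (fi k)) x⟫ = - ⟪v, outerNormal (Body (fi k)) x⟫ := by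
  have h1 := norm_normal hx
  unfold rfl'
  rw [inner_sub_left, real_inner_smul_left, real_inner_self_eq_norm_sq, h1]
  ring

theorem rfl_rfl {x v : Euc n} (hx : fi k x = 1) : rfl' k x (rfl' k x v) = v := by
  have h1 := rfl_normal (v := v) hx
  set ν := outerNormal (Body (fi k)) x with hν
  unfold rfl' at h1 ⊢
  rw [← hν] at h1 ⊢
  rw [h1, mul_neg, neg_smul, sub_neg_eq_add, sub_add_cancel]

theorem rfl_neg {x v : Euc n} : rfl' k x (-v) = - rfl' k x v := by
  unfold rfl'
  rw [inner_neg_left, mul_neg, neg_smul, neg_sub, sub_neg_eq_add]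
  abel

theorem am_rfl {i j : Fin n} (hi : i ≠ k) (hj : j ≠ k) {x v : Euc n} (hx : fi k x = 1) :
    am i j x (rfl' k x v) = am i j x v := by
  unfold rfl'
  rw [(goodi k).outerNormal_eq hx, am_sub_right, am_smul_right, am_smul_right, am_gi hi hj]
  ring

/-- an outward line leaves the body at its boundary point -/
theorem exit_through {x v : Euc n} (hx : fi k x = 1) (hv : ‖v‖ = 1)
    (ho : 0 < ⟪v, outerNormal (Body (fi k)) x⟫) : exitPoint (Body (fi k)) (lineThrough x v) = x := by
  have hN := ((goodi k).isOuterNormal_iff hx).2 ((goodi k).outerNormal_eq hx)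
  have hs : sSup {t : ℝ | (lineThrough x v).1 + t • (lineThrough x v).2 ∈ Body (fi k)} = ⟪x, v⟫ := by
    have e : ∀ t : ℝ, (lineThrough x v).1 + t • (lineThrough x v).2 = x + (t - ⟪x, v⟫) • v := by
      intro t
      show x - ⟪x, v⟫ • v + t • v = _
      rw [sub_smul]
      abel
    apply IsGreatest.csSup_eq
    constructor
    · show _ ∈ Body (fi k)
      rw [e, sub_self, zero_smul, add_zero]
      exact hx.le
    · intro t ht
      have ht' : (lineThrough x v).1 + t • (lineThrough x v).2 ∈ Body (fi k) := ht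
      rw [e] at ht'
      have h1 := hN.2 _ ht'
      rw [add_sub_cancel_left, real_inner_smul_right,
        real_inner_comm v (outerNormal (Body (fi k)) x)] at h1
      by_contra hcon
      push Not at hcon
      have : 0 < (t - ⟪x, v⟫) * ⟪v, outerNormal (Body (fi k)) x⟫ := mul_pos (by linarith) ho
      linarith
  unfold exitPoint
  rw [hs]
  show x - ⟪x, v⟫ • v + ⟪x, v⟫ • v = x
  abel

/-- an inward line meets the interior -/
theorem meets {x v : Euc n} (hx : fi k x = 1) (hv : ‖v‖ = 1)
    (hi : ⟪v, outerNormal (Body (fi k)) x⟫ < 0) : lineThrough x v ∈ lines (Body (fi k)) := by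
  have h0 : 0 < ‖gi k x‖ := norm_pos_iff.2 ((goodi k).g_ne_zero hx)
  have h1 : ⟪gi k x, v⟫ < 0 := by
    rw [(goodi k).outerNormal_eq hx, real_inner_smul_right, real_inner_comm] at hi
    by_contra hcon
    push Not at hcon
    have : 0 ≤ ‖gi k x‖⁻¹ * ⟪gi k x, v⟫ := by positivity
    linarith
  obtain ⟨s, hs, h2⟩ := (goodi k).exists_lt h1
  refine ⟨hv, ?_, ⟪x, v⟫ + s, ?_⟩
  · show ⟪x - ⟪x, v⟫ • v, v⟫ = 0
    rw [inner_sub_left, real_inner_smul_left, real_inner_self_eq_norm_sq, hv]
    ring
  · rw [(goodi k).interior_body]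
    show fi k (x - ⟪x, v⟫ • v + (⟪x, v⟫ + s) • v) < 1
    have : x - ⟪x, v⟫ • v + (⟪x, v⟫ + s) • v = x + s • v := by
      rw [add_smul]; abel
    rw [this, ← hx]
    exact h2

/-- a line of the phase space is the line through its exit point, at which it points outward -/
theorem exit_spec {l : Euc n × Euc n} (hl : l ∈ lines (Body (fi k))) :
    fi k (exitPoint (Body (fi k)) l) = 1 ∧ lineThrough (exitPoint (Body (fi k)) l) l.2 = l ∧
      0 < ⟪l.2, outerNormal (Body (fi k)) (exitPoint (Body (fi k)) l)⟫ := by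
  obtain ⟨hv, hp, t₀, ht₀⟩ := hl
  rw [(goodi k).interior_body] at ht₀
  have ht₀' : fi k (l.1 + t₀ • l.2) < 1 := ht₀
  set A : Set ℝ := {t : ℝ | l.1 + t • l.2 ∈ Body (fi k)} with hA
  have hcl : IsClosed A := by
    have : Continuous fun t : ℝ => l.1 + t • l.2 := by fun_prop
    exact (goodi k).isClosed_body.preimage this
  have hne : A.Nonempty := ⟨t₀, ht₀'.le⟩
  have hbd : BddAbove A := by
    refine ⟨1, fun t ht => ?_⟩
    have h1 : ‖l.1 + t • l.2‖ ≤ 1 := (goodi k).norm_le_of_mem ht
    have h2 : ⟪l.1 + t • l.2, l.2⟫ = t := by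
      rw [inner_add_left, hp, real_inner_smul_left, real_inner_self_eq_norm_sq, hv]
      ring
    have h3 := real_inner_le_norm (l.1 + t • l.2) l.2
    rw [h2, hv, mul_one] at h3
    exact h3.trans h1
  set τ := sSup A with hτ
  have hτA : τ ∈ A := hcl.csSup_mem hne hbd
  have hx : exitPoint (Body (fi k)) l = l.1 + τ • l.2 := rfl
  have hlt : t₀ < τ := by
    have hc : Continuous fun t : ℝ => fi k (l.1 + t • l.2) := by
      have : Continuous fun t : ℝ => l.1 + t • l.2 := by fun_prop
      exact (goodi k).continuous.comp this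
    have h1 : ∀ᶠ t in 𝓝[>] t₀, fi k (l.1 + t • l.2) < 1 :=
      (hc.continuousAt.eventually (gt_mem_nhds ht₀')).filter_mono nhdsWithin_le_nhds
    obtain ⟨t, ht1, ht2⟩ := (h1.and self_mem_nhdsWithin).exists
    exact lt_of_lt_of_le ht2 (le_csSup hbd (show l.1 + t • l.2 ∈ Body (fi k) from ht1.le))
  have hf1 : fi k (l.1 + τ • l.2) = 1 := by
    have h2 : fi k (l.1 + τ • l.2) ≤ 1 := hτA
    refine le_antisymm h2 ?_
    by_contra hcon
    push Not at hcon
    have hc : Continuous fun t : ℝ => fi k (l.1 + t • l.2) := by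
      have : Continuous fun t : ℝ => l.1 + t • l.2 := by fun_prop
      exact (goodi k).continuous.comp this
    have h1 : ∀ᶠ t in 𝓝[>] τ, fi k (l.1 + t • l.2) < 1 :=
      (hc.continuousAt.eventually (gt_mem_nhds hcon)).filter_mono nhdsWithin_le_nhds
    obtain ⟨t, ht1, ht2⟩ := (h1.and self_mem_nhdsWithin).exists
    have h3 : t ≤ τ := le_csSup hbd (show l.1 + t • l.2 ∈ Body (fi k) from ht1.le)
    exact absurd h3 (not_le.2 ht2)
  rw [hx]
  refine ⟨hf1, ?_, ?_⟩
  · show (l.1 + τ • l.2 - ⟪l.1 + τ • l.2, l.2⟫ • l.2, l.2) = l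
    have h2 : ⟪l.1 + τ • l.2, l.2⟫ = τ := by
      rw [inner_add_left, hp, real_inner_smul_left, real_inner_self_eq_norm_sq, hv]
      ring
    rw [h2, add_sub_cancel_right]
  · have h0 : 0 < ‖gi k (l.1 + τ • l.2)‖ := norm_pos_iff.2 ((goodi k).g_ne_zero hf1)
    rw [(goodi k).outerNormal_eq hf1, real_inner_smul_right, real_inner_comm]
    apply mul_pos (by positivity)
    have h4 := (goodi k).ge (l.1 + τ • l.2) (l.1 + t₀ • l.2)
    have h5 : l.1 + t₀ • l.2 - (l.1 + τ • l.2) = (t₀ - τ) • l.2 := by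
      rw [sub_smul]; abel
    rw [h5, real_inner_smul_right, hf1, norm_smul, hv, mul_one] at h4
    have h6 : 0 ≤ ‖t₀ - τ‖ ^ 2 := by positivity
    by_contra hcon
    push Not at hcon
    have h7 : 0 ≤ (t₀ - τ) * ⟪gi k (l.1 + τ • l.2), l.2⟫ :=
      mul_nonneg_of_nonpos_of_nonpos (by linarith) hcon
    linarith

theorem billiard_eq {l : Euc n × Euc n} :
    billiardMap (Body (fi k)) l =
      lineThrough (exitPoint (Body (fi k)) l) (rfl' k (exitPoint (Body (fi k)) l) l.2) := rfl

/-- reversed line -/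
def rev (l : Euc n × Euc n) : Euc n × Euc n := (l.1, -l.2)

theorem rev_rev (l : Euc n × Euc n) : rev (rev l) = l := by simp [rev]

theorem rev_mem {l : Euc n × Euc n} (hl : l ∈ lines (Body (fi k))) : rev l ∈ lines (Body (fi k)) := by
  obtain ⟨hv, hp, t₀, ht₀⟩ := hl
  refine ⟨by simpa [rev] using hv, by simpa [rev] using hp, -t₀, ?_⟩
  simpa [rev] using ht₀

theorem rev_through (x v : Euc n) : rev (lineThrough x v) = lineThrough x (-v) := by
  simp [rev, lineThrough]

theorem billiard_mem {l : Euc n × Euc n} (hl : l ∈ lines (Body (fi k))) :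
    billiardMap (Body (fi k)) l ∈ lines (Body (fi k)) := by
  obtain ⟨h1, h2, h3⟩ := exit_spec hl
  rw [billiard_eq]
  apply meets h1 (norm_rfl h1 hl.1)
  rw [rfl_normal h1]
  linarith

/-- the billiard map is conjugate to its inverse by the reversal -/
theorem billiard_rev {l : Euc n × Euc n} (hl : l ∈ lines (Body (fi k))) :
    billiardMap (Body (fi k)) (rev (billiardMap (Body (fi k)) l)) = rev l := by
  obtain ⟨h1, h2, h3⟩ := exit_spec hl
  set x := exitPoint (Body (fi k)) l with hx
  have e1 : rev (billiardMap (Body (fi k)) l) = lineThrough x (-(rfl' k x l.2)) := by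
    rw [billiard_eq, ← hx, rev_through]
  have hv : ‖-(rfl' k x l.2)‖ = 1 := by rw [norm_neg]; exact norm_rfl h1 hl.1
  have ho : 0 < ⟪-(rfl' k x l.2), outerNormal (Body (fi k)) x⟫ := by
    rw [inner_neg_left, rfl_normal h1, neg_neg]
    exact h3
  rw [e1, billiard_eq, exit_through h1 hv ho]
  show lineThrough x (rfl' k x (-(rfl' k x l.2))) = rev l
  rw [rfl_neg, rfl_rfl h1, ← rev_through, h2]

/-- the lines of given angular momentum `c ≠ 0` form an invariant hypersurface -/
theorem isInvariant {i j : Fin n} (hi : i ≠ k) (hj : j ≠ k) {c : ℝ} (hc : c ≠ 0)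
    (hne : ∃ l ∈ lines (Body (fi k)), am i j l.1 l.2 = c) :
    IsInvariantHypersurface (Body (fi k)) {l | l ∈ lines (Body (fi k)) ∧ am i j l.1 l.2 = c} where
  nonempty := by
    obtain ⟨l, h1, h2⟩ := hne
    exact ⟨l, h1, h2⟩
  subset := fun l hl => hl.1
  closed := by
    refine ⟨{l | am i j l.1 l.2 = c}, ?_, rfl⟩
    apply isClosed_eq _ continuous_const
    unfold am
    fun_prop
  smooth := by
    rintro l ⟨hl, hlc⟩
    refine ⟨fun l' => am i j l'.1 l'.2 - c, ?_, ?_, (l.1, 0), ?_, ?_⟩
    · unfold am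
      fun_prop
    · refine Eventually.of_forall fun l' hl' => ?_
      simp only [mem_ofPred_eq, hl', true_and]
      exact sub_eq_zero.symm
    · refine ⟨by simp, ?_⟩
      simp only [inner_zero_right, add_zero]
      exact hl.2.1
    · have hd : DifferentiableAt ℝ (fun l' : Euc n × Euc n => am i j l'.1 l'.2 - c) l := by
        unfold am
        fun_prop
      have h1 : HasDerivAt (fun s : ℝ => l + s • ((l.1, 0) : Euc n × Euc n)) (l.1, 0) 0 := by
        simpa using ((hasDerivAt_id (0 : ℝ)).smul_const ((l.1, 0) : Euc n × Euc n)).const_add l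
      have h2 : HasDerivAt (fun s : ℝ => am i j (l + s • ((l.1, 0) : Euc n × Euc n)).1
          (l + s • ((l.1, 0) : Euc n × Euc n)).2 - c)
          (fderiv ℝ (fun l' : Euc n × Euc n => am i j l'.1 l'.2 - c) l (l.1, 0)) 0 :=
        HasFDerivAt.comp_hasDerivAt (x := (0 : ℝ))
          (f := fun s : ℝ => l + s • ((l.1, 0) : Euc n × Euc n))
          (l := fun l' : Euc n × Euc n => am i j l'.1 l'.2 - c)
          (by simpa using hd.hasFDerivAt) h1
      have e : (fun s : ℝ => am i j (l + s • ((l.1, 0) : Euc n × Euc n)).1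
          (l + s • ((l.1, 0) : Euc n × Euc n)).2 - c) = fun s : ℝ => s * c := by
        ext s
        simp only [Prod.fst_add, Prod.smul_fst, Prod.snd_add, Prod.smul_snd, smul_zero, add_zero]
        rw [am_add_left, am_smul_left, hlc]
        ring
      rw [e] at h2
      have h3 : HasDerivAt (fun s : ℝ => s * c) c 0 := by
        simpa using (hasDerivAt_id (0 : ℝ)).mul_const c
      rw [h2.unique h3]
      exact hc
  invariant := by
    have hinv : ∀ l ∈ lines (Body (fi k)),
        am i j (billiardMap (Body (fi k)) l).1 (billiardMap (Body (fi k)) l).2 = am i j l.1 l.2 := by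
      intro l hl
      obtain ⟨h1, h2, h3⟩ := exit_spec hl
      rw [billiard_eq, am_through, am_rfl hi hj h1, ← am_through, h2]
    apply Subset.antisymm
    · rintro _ ⟨l, ⟨hl, hc⟩, rfl⟩
      exact ⟨billiard_mem hl, by rw [hinv l hl, hc]⟩
    · rintro l ⟨hl, hc⟩
      have h1 := rev_mem hl
      have h2 := billiard_mem h1
      have h3 := rev_mem h2
      have h4 := billiard_rev h1
      rw [rev_rev] at h4
      refine ⟨_, ⟨h3, ?_⟩, h4⟩
      rw [← hc]
      have h5 := hinv _ h3
      rw [h4] at h5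
      exact h5.symm

end

theorem q1 (n : ℕ) (hn : 3 ≤ n) : ∃ Ω : Set (Euc n), IsTable Ω ∧ ¬ IsEllipsoid Ω ∧
    ∃ S : Set (Euc n × Euc n), IsInvariantHypersurface Ω S := by
  set i : Fin n := ⟨0, by omega⟩ with hi
  set j : Fin n := ⟨1, by omega⟩ with hj
  set k : Fin n := ⟨2, by omega⟩ with hk
  have hik : i ≠ k := by simp [hi, hk]
  have hjk : j ≠ k := by simp [hj, hk]
  have hij : i ≠ j := by simp [hi, hj]
  refine ⟨Body (fi k), (goodi k).isTable, not_elli hik, _,
    isInvariant (i := i) (j := j) hik hjk (c := 1 / 2) (by norm_num)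
      ⟨((1 / 2 : ℝ) • ek i, ek j), ⟨norm_ek j, ?_, 0, ?_⟩, ?_⟩⟩
  · show ⟪(1 / 2 : ℝ) • ek i, ek j⟫ = 0
    rw [real_inner_smul_left, ek_inner, ek_ne hij]
    ring
  · rw [(goodi k).interior_body]
    show fi k ((1 / 2 : ℝ) • ek i + (0 : ℝ) • ek j) < 1
    rw [zero_smul, add_zero]
    unfold fi
    rw [norm_smul, norm_ek]
    simp [ek_ne hik.symm]
    norm_num
  · simp [am, ek_same, ek_ne hij, ek_ne hij.symm]

end Pool.Agent.Y294.MB
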